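import Mathlib

namespace Pool.Agent.Results.MP_aa870c_nt.ShuffleTeraiFalse

/-- The standing hypotheses of Q1 (Miyazaki's shuffle variant): `a, b, c > 1`,
`gcd (a, b, c) = 1`, `a ^ p + b ^ q = c ^ r` with `min {p, q, r} > 1`, `a < b`, the excluded
triples `(2, 7, 3)` and `(2, 2 ^ k - 1, 2 ^ k + 1)`, and it is not the case that both
`q = r = 2` and `c = b + 1`. -/
def Hyp (a b c p q r : ℕ) : Prop :=
  1 < a ∧ 1 < b ∧ 1 < c ∧ Nat.gcd a (Nat.gcd b c) = 1 ∧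
  1 < p ∧ 1 < q ∧ 1 < r ∧ a ^ p + b ^ q = c ^ r ∧ a < b ∧
  (a, b, c) ≠ (2, 7, 3) ∧ (∀ k : ℕ, 0 < k → (a, b, c) ≠ (2, 2 ^ k - 1, 2 ^ k + 1)) ∧
  ¬ ((q = 2 ∧ r = 2) ∧ c = b + 1)

/-- The permuted equation `c ^ X + b ^ Y = a ^ Z` has a solution in positive integers. -/
def ShuffleSolvable (a b c : ℕ) : Prop :=
  ∃ X Y Z : ℕ, 0 < X ∧ 0 < Y ∧ 0 < Z ∧ c ^ X + b ^ Y = a ^ Z

/-- The Pell sequence `(c, a)` with `a ^ 2 + 1 = 2 * c ^ 2`, started at `(5, 7)`. -/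
def pell : ℕ → ℕ × ℕ
  | 0 => (5, 7)
  | n + 1 => (3 * (pell n).1 + 2 * (pell n).2, 4 * (pell n).1 + 3 * (pell n).2)

theorem pell_eq (n : ℕ) : (pell n).2 ^ 2 + 1 = 2 * (pell n).1 ^ 2 := by
  induction n with
  | zero => simp [pell]
  | succ n ih => simp only [pell]; nlinarith

theorem pell_ge (n : ℕ) : 5 ≤ (pell n).1 ∧ 7 ≤ (pell n).2 := by
  induction n with
  | zero => simp [pell]
  | succ n ih => simp only [pell]; omega

theorem pell_odd (n : ℕ) : Odd (pell n).1 ∧ Odd (pell n).2 := by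
  induction n with
  | zero => simp [pell]; decide
  | succ n ih =>
    obtain ⟨⟨u, hu⟩, ⟨v, hv⟩⟩ := ih
    simp only [pell]
    refine ⟨⟨3 * u + 2 * v + 2, by omega⟩, ⟨4 * u + 3 * v + 3, by omega⟩⟩

theorem pell_strictMono : StrictMono (fun n => (pell n).1) := by
  apply strictMono_nat_of_lt_succ
  intro n
  have := pell_ge n
  simp only [pell]
  omega

theorem hyp_sporadic : Hyp 2 11 5 2 2 3 := by
  refine ⟨by norm_num, by norm_num, by norm_num, by norm_num, by norm_num, by norm_num,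
    by norm_num, by norm_num, by norm_num, by simp, ?_, by simp⟩
  intro k _ h
  simp only [Prod.mk.injEq] at h
  obtain ⟨_, h1, h2⟩ := h
  omega

theorem hyp_pell (n : ℕ) : Hyp (pell n).2 ((pell n).1 ^ 2 - 1) (pell n).1 2 2 4 := by
  have h1 := pell_eq n
  obtain ⟨h2, h3⟩ := pell_ge n
  generalize (pell n).1 = c at *
  generalize (pell n).2 = a at *
  have hcpos : 0 < c ^ 2 := by positivity
  obtain ⟨b, hb⟩ : ∃ b, c ^ 2 = b + 1 := ⟨c ^ 2 - 1, by omega⟩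
  have hb' : c ^ 2 - 1 = b := by omega
  rw [hb']
  have hbig : 24 ≤ b := by nlinarith
  have hgcd : Nat.gcd b c = 1 := by
    have hd1 : Nat.gcd b c ∣ b := Nat.gcd_dvd_left _ _
    have hd2 : Nat.gcd b c ∣ c ^ 2 := (Nat.gcd_dvd_right b c).trans (dvd_pow_self c (by norm_num))
    rw [hb] at hd2
    exact Nat.dvd_one.mp ((Nat.dvd_add_right hd1).mp hd2)
  have hab : a < b := by
    by_contra hcon
    push Not at hcon
    have : b ^ 2 ≤ a ^ 2 := Nat.pow_le_pow_left hcon 2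
    nlinarith
  refine ⟨by omega, by omega, by omega, by rw [hgcd]; simp, by norm_num, by norm_num,
    by norm_num, ?_, hab, ?_, ?_, by simp⟩
  · have : c ^ 4 = (c ^ 2) ^ 2 := by ring
    rw [this, hb]
    nlinarith
  · simp only [ne_eq, Prod.mk.injEq, not_and]
    intro h; omega
  · intro k _ h
    simp only [Prod.mk.injEq] at h
    omega

theorem solvable_pell (n : ℕ) : ShuffleSolvable (pell n).2 ((pell n).1 ^ 2 - 1) (pell n).1 := by
  refine ⟨2, 1, 2, by norm_num, by norm_num, by norm_num, ?_⟩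
  have h1 := pell_eq n
  have h2 := (pell_ge n).1
  have h3 : 0 < (pell n).1 ^ 2 := by positivity
  rw [pow_one]
  omega

/-- **Miyazaki's shuffle variant (Q1) is false.**  It already fails for
`2 ^ 2 + 11 ^ 2 = 5 ^ 3`, `5 + 11 = 2 ^ 4`; moreover infinitely many triples `(a, b, c)`
(even with `a, c` odd and `b` even) violate it. -/
theorem result :
    (¬ ∀ a b c p q r : ℕ, Hyp a b c p q r → ¬ ShuffleSolvable a b c) ∧
    (Hyp 2 11 5 2 2 3 ∧ ShuffleSolvable 2 11 5) ∧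
    Set.Infinite {t : ℕ × ℕ × ℕ | Odd t.1 ∧ Even t.2.1 ∧ Odd t.2.2 ∧
      ShuffleSolvable t.1 t.2.1 t.2.2 ∧ ∃ p q r : ℕ, Hyp t.1 t.2.1 t.2.2 p q r} := by
  have hs : ShuffleSolvable 2 11 5 := ⟨1, 1, 4, by norm_num⟩
  refine ⟨fun h => h 2 11 5 2 2 3 hyp_sporadic hs, ⟨hyp_sporadic, hs⟩, ?_⟩
  refine Set.infinite_of_injective_forall_mem
    (f := fun n => ((pell n).2, (pell n).1 ^ 2 - 1, (pell n).1)) ?_ ?_
  · intro m n h
    simp only [Prod.mk.injEq] at h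
    exact pell_strictMono.injective h.2.2
  · intro n
    have ho := pell_odd n
    refine ⟨ho.2, ?_, ho.1, solvable_pell n, 2, 2, 4, hyp_pell n⟩
    obtain ⟨u, hu⟩ := ho.1
    refine ⟨2 * u ^ 2 + 2 * u, ?_⟩
    have : (pell n).1 ^ 2 = 4 * u ^ 2 + 4 * u + 1 := by rw [hu]; ring
    simp only
    omega

end Pool.Agent.Results.MP_aa870c_nt.ShuffleTeraiFalse
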